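import Mathlib
import Pool.Agent.Lib_helper73.DEG.Fld
import Pool.Agent.Lib_helper73.DEG.Cycle

/-!
Degree five, every prime: a closed cycle of three conics, one of them with a free coefficient.
-/

namespace Pool.Agent.Lib_helper48.DEG5

open Pool.Agent.Lib_helper11.CUB Pool.Agent.Lib_helper3.QUI Polynomial
open Pool.Agent.Lib_helper48.EVEN (Gen gen_affine gen_sq affine_not_mem list_family)
open Pool.Agent.Lib_helper48.CNT (exc mem_exc Maj Ev Ev.and Ev.imp Ev.sub Ev.signs windows_count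
  gen_poly gen_cubic gen_neg)
open Pool.Agent.Lib_helper3.CNT2
open Pool.Agent.Lib_helper73.DEG

/-- A closed cycle of three conics. -/
theorem count_cycle3 {K : Type*} [Field K] [NumberField K] (hd : Odd (Module.finrank ℚ K))
    (h1 : 1 < Module.finrank ℚ K) {w0 w1 w2 : K} (g0 : Gen w0) {q0 q1 q2 a0 a1 a2 c0 c1 c2 : ℚ}
    (hq0 : 0 < q0) (hq1 : 0 < q1) (hq2 : 0 < q2)
    (e0 : w1 ^ 2 = (q0 : K) * (w0 + (a0 : K)) ^ 2 + (c0 : K))
    (e1 : w2 ^ 2 = (q1 : K) * (w1 + (a1 : K)) ^ 2 + (c1 : K))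
    (e2 : w0 ^ 2 = (q2 : K) * (w2 + (a2 : K)) ^ 2 + (c2 : K))
    {p : ℕ} (hp : p.Prime) {r : ℚ} (hr : r ≠ 0) (hprod : q0 * q1 * q2 = p * (r * r)) :
    ∃ g : Fin 6 → ℤ[X], (∀ i, (g i).Monic ∧ Irreducible (g i) ∧
      (g i).natDegree = Module.finrank ℚ K) ∧ ∃ C : ℕ, ∀ h : ℕ → ℤ, CM h → h p = -1 →
        ∀ x : ℕ, 1 ≤ x → ∃ i, ∀ s : ℤ, (s = 1 ∨ s = -1) →
          x < 4 * ((Finset.Icc x (C * x ^ 2)).filter (fun n : ℕ =>
            h ((g i).eval (n : ℤ)).natAbs = s)).card := by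
  have g1 : Gen w1 := gen_next hd g0 hq0 e0
  have g2 : Gen w2 := gen_next hd g1 hq1 e1
  have s0 : Path (w1 ^ 2) (w0 ^ 2) (fun h => H h q0) 2 :=
    Path.step hd h1 g0 (gen_sq hd g1) hq0 (α' := 0) (c' := 0) e0 (by push_cast; ring)
  have s1 : Path (w2 ^ 2) (w1 ^ 2) (fun h => H h q1) 2 :=
    Path.step hd h1 g1 (gen_sq hd g2) hq1 (α' := 0) (c' := 0) e1 (by push_cast; ring)
  have s2 : Path (w0 ^ 2) (w2 ^ 2) (fun h => H h q2) 2 :=
    Path.step hd h1 g2 (gen_sq hd g0) hq2 (α' := 0) (c' := 0) e2 (by push_cast; ring)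
  have full : Path (w0 ^ 2) (w0 ^ 2) (fun h => H h q2 * H h q1 * H h q0) 6 :=
    (s2.trans s1).trans s0
  obtain ⟨L, hL, hG, hmem, hE⟩ := full.close
  obtain ⟨m, hm, H'⟩ := windows_count hd h1 hG hE
  obtain ⟨hint, C, H'⟩ := H' m hm dvd_rfl
  obtain ⟨y, hy1, hy2⟩ := list_family hL (List.ne_nil_of_mem hmem)
  have hlabel : ∀ h : ℕ → ℤ, CM h → h p = -1 → H h q2 * H h q1 * H h q0 = -1 := by
    intro h hh hhp
    have k1 := H_mul hh (mul_ne_zero hq0.ne' hq1.ne') hq2.ne'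
    rw [H_mul hh hq0.ne' hq1.ne', hprod,
      H_mul hh (by exact_mod_cast hp.ne_zero) (mul_ne_zero hr hr), H_mul hh hr hr, H_sq hh hr,
      H_nat hh, hhp] at k1
    linarith
  refine ⟨fun i => minpoly ℤ ((m : K) * y i), fun i => ?_, C, fun h hh hhp x hx => ?_⟩
  · obtain ⟨a, b, c⟩ := gen_poly (hG _ (hy1 i)) hm (hint _ (hy1 i))
    exact ⟨a, b, c⟩
  · obtain ⟨z, hz, H''⟩ := H' h hh (by
      rw [hlabel h hh hhp]
      norm_num) x hx
    obtain ⟨i, rfl⟩ := hy2 z hz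
    exact ⟨i, H''⟩

theorem nofac_5 : ∀ k, 1 ≤ k → k ≤ 5 / 2 → nofac 5 [1, 0, 0, 4, 0, 3] k = true := by
  intro k h1 h2
  have h3 : k ≤ 2 := by omega
  interval_cases k <;> decide +kernel

/-- Degree 5, every prime. -/
theorem count_5 {p : ℕ} (hp : p.Prime) : ∃ g : Fin 6 → Polynomial ℤ, (∀ i, (g i).Monic ∧
    Irreducible (g i) ∧ (g i).natDegree = 5) ∧ ∃ C : ℕ, ∀ h : ℕ → ℤ, CM h → h p = -1 →
      ∀ x : ℕ, 1 ≤ x → ∃ i, ∀ s : ℤ, (s = 1 ∨ s = -1) →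
        x < 4 * ((Finset.Icc x (C * x ^ 2)).filter (fun n : ℕ =>
          h ((g i).eval (n : ℤ)).natAbs = s)).card := by
  obtain ⟨q, hq⟩ : ∃ q : ℤ, q = 25 * p := ⟨_, rfl⟩
  obtain ⟨as, has⟩ : ∃ as : List ℤ, as = [-2 * q, q ^ 2 - 4 * q - 5, 4 * (q + 1) ^ 2,
    -(3 * q ^ 2 - 2 * q - 5), -2 * (q + 1) ^ 2] := ⟨_, rfl⟩
  have hlen : as.length = 5 := by rw [has]; rfl
  have hmod : as.map (fun a : ℤ => (a % ((5 : ℕ) : ℤ)).toNat) = [0, 0, 4, 0, 3] := by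
    have m1 : (-2 * q) % ((5 : ℕ) : ℤ) = 0 := by
      rw [hq]; push_cast; omega
    have m2 : (q ^ 2 - 4 * q - 5) % ((5 : ℕ) : ℤ) = 0 := by
      have : q ^ 2 - 4 * q - 5 = 5 * (125 * (p : ℤ) ^ 2 - 20 * p - 1) := by rw [hq]; ring
      rw [this]; push_cast; omega
    have m3 : (4 * (q + 1) ^ 2) % ((5 : ℕ) : ℤ) = 4 := by
      have : 4 * (q + 1) ^ 2 = 5 * (500 * (p : ℤ) ^ 2 + 40 * p) + 4 := by rw [hq]; ring
      rw [this]; push_cast; omega
    have m4 : (-(3 * q ^ 2 - 2 * q - 5)) % ((5 : ℕ) : ℤ) = 0 := by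
      have : -(3 * q ^ 2 - 2 * q - 5) = 5 * (-375 * (p : ℤ) ^ 2 + 10 * p + 1) := by rw [hq]; ring
      rw [this]; push_cast; omega
    have m5 : (-2 * (q + 1) ^ 2) % ((5 : ℕ) : ℤ) = 3 := by
      have : -2 * (q + 1) ^ 2 = 5 * (-250 * (p : ℤ) ^ 2 - 20 * p - 1) + 3 := by rw [hq]; ring
      rw [this]; push_cast; omega
    rw [has]
    simp only [List.map_cons, List.map_nil, m1, m2, m3, m4, m5]
    rfl
  obtain ⟨K, _, _, hfin, x, hx, e⟩ := exists_field (l := 5) (by norm_num) as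
    (by rw [hlen]; norm_num) (by rw [hlen, hmod]; exact nofac_5)
  rw [hlen] at hfin
  rw [has] at e
  simp only [List.foldl_cons, List.foldl_nil] at e
  obtain ⟨Q, hQ⟩ : ∃ Q : K, Q = ((q : ℚ) : K) := ⟨_, rfl⟩
  have hqQ : ((q : ℤ) : K) = Q := by rw [hQ]; push_cast; rfl
  push_cast at e
  rw [hqQ] at e
  have hd : Odd (Module.finrank ℚ K) := by rw [hfin]; decide
  have h1 : 1 < Module.finrank ℚ K := by rw [hfin]; norm_num
  have hp1 : (1 : ℤ) ≤ p := by exact_mod_cast hp.one_lt.le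
  have hq25 : (25 : ℤ) ≤ q := by rw [hq]; linarith
  have hQ1 : Q - 1 ≠ 0 := by
    rw [hQ, sub_ne_zero]
    intro h0
    have h2 : (q : ℚ) = 1 := by exact_mod_cast h0
    have h3 : q = 1 := by exact_mod_cast h2
    omega
  have hx0 : x ≠ 0 := by
    intro h0
    rw [h0] at e
    have h2 : (Q + 1) ^ 2 = 0 := by linear_combination (-1 / 2) * e
    have h3 : Q + 1 = 0 := pow_eq_zero_iff (by norm_num) |>.1 h2
    rw [hQ] at h3
    have h4 : (q : ℚ) + 1 = 0 := by exact_mod_cast h3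
    have h5 : q + 1 = 0 := by exact_mod_cast h4
    omega
  obtain ⟨w0, hw0⟩ : ∃ w : K, w = (Q + 1 - x) / (Q - 1) := ⟨_, rfl⟩
  obtain ⟨w1, hw1⟩ : ∃ w : K, w = ((x ^ 2 - 2) * w0 - x) / (2 * x) := ⟨_, rfl⟩
  obtain ⟨w2, hw2⟩ : ∃ w : K, w = 2 * x * w0 - 2 * w1 - 3 := ⟨_, rfl⟩
  have g0 : Gen w0 := by
    have hr : (-(1 / ((q : ℚ) - 1))) ≠ 0 := by
      have : (q : ℚ) - 1 ≠ 0 := by
        intro h0
        have h2 : (q : ℚ) = 1 := by linarith
        have h3 : q = 1 := by exact_mod_cast h2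
        omega
      exact neg_ne_zero.2 (one_div_ne_zero this)
    have := gen_affine hx hr (((q : ℚ) + 1) / ((q : ℚ) - 1))
    convert this using 1
    rw [hw0]
    push_cast
    rw [hqQ]
    field_simp
    ring
  have f0 : w1 ^ 2 = (w0 - 1) * (Q * w0 - 1) := by
    rw [hw1, hw0]
    field_simp
    linear_combination (x - 2) * e
  have f1 : w2 ^ 2 = 12 * w1 ^ 2 + 12 * w1 + 1 := by
    rw [hw2, hw1, hw0]
    field_simp
    linear_combination (-8 * (x - 2)) * e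
  have f2 : 12 * w0 ^ 2 = (w2 + 1) * (w2 + 5) := by
    rw [hw2, hw1, hw0]
    field_simp
    linear_combination (-(x - 2)) * e
  have hqq : (0 : ℚ) < q := by
    have : (0 : ℤ) < q := by omega
    exact_mod_cast this
  have hqK : (q : K) ≠ 0 := by
    have : q ≠ 0 := by omega
    exact_mod_cast this
  rw [← hfin]
  exact count_cycle3 hd h1 g0 (q0 := q) (q1 := 12) (q2 := 1 / 12) (a0 := -((q : ℚ) + 1) / (2 * q))
    (a1 := 1 / 2) (a2 := 3) (c0 := 1 - ((q : ℚ) + 1) ^ 2 / (4 * q)) (c1 := -2) (c2 := -1 / 3)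
    hqq (by norm_num) (by norm_num)
    (by
      rw [f0]
      push_cast
      rw [← hqQ] at *
      field_simp
      ring)
    (by rw [f1]; push_cast; ring)
    (by push_cast; linear_combination (1 / 12) * f2)
    hp (r := 5) (by norm_num) (by
      rw [hq]; push_cast; ring)

end Pool.Agent.Lib_helper48.DEG5
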